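import Mathlib

set_option linter.unusedVariables false

namespace Pool.Agent.Results.MP_6f4f36_nt.Value

open Finset Polynomial

/-- all parts are powers of three -/
def Ternary {n : ℕ} (p : Nat.Partition n) : Prop := ∀ i ∈ p.parts, ∃ j : ℕ, i = 3 ^ j

/-- the polynomial `h_λ` -/
noncomputable def h {n : ℕ} (p : Nat.Partition n) : ℤ[X] :=
  ∏ i ∈ Icc 1 n, (1 + X ^ i) ^ (n / i - p.parts.count i)

/-- `G` is the monic greatest common divisor of the `h_λ` over ternary partitions -/
def IsG (n : ℕ) (G : ℤ[X]) : Prop :=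
  G.Monic ∧ (∀ p : Nat.Partition n, Ternary p → G ∣ h p) ∧
    ∀ D : ℤ[X], (∀ p : Nat.Partition n, Ternary p → D ∣ h p) → D ∣ G

open Classical in
/-- `N` is the numerator polynomial -/
def IsNum (n : ℕ) (N : ℤ[X]) : Prop :=
  ∃ G, IsG n G ∧ G * N = ∑ p ∈ (univ : Finset (Nat.Partition n)).filter Ternary, h p

noncomputable def c : ℕ → ℤ[X]
  | 0 => X + 1
  | i + 1 => (X ^ 3 ^ i) ^ 2 - X ^ 3 ^ i + 1

lemma prod_c (j : ℕ) : ∏ i ∈ range (j + 1), c i = 1 + X ^ 3 ^ j := by
  induction j with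
  | zero => simp [c, add_comm]
  | succ j ih => rw [prod_range_succ, ih, c, pow_succ 3 j, pow_mul]; ring

lemma monic_one_add (i : ℕ) (hi : 0 < i) : (1 + X ^ i : ℤ[X]).Monic := by
  rw [add_comm]; exact monic_X_pow_add_C 1 hi.ne'

lemma monic_c (i : ℕ) : (c i).Monic := by
  have h1 := monic_one_add (3 ^ i) (by positivity)
  rw [← prod_c, prod_range_succ] at h1
  cases i with
  | zero => simpa using h1
  | succ i =>
    rw [prod_c] at h1
    exact (monic_one_add (3 ^ i) (by positivity)).of_mul_monic_left h1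

/-- number of parts at least `3^i` -/
def k {n : ℕ} (p : Nat.Partition n) (i : ℕ) : ℕ := (p.parts.filter fun x => 3 ^ i ≤ x).card

lemma k_le {n : ℕ} (p : Nat.Partition n) (i : ℕ) : k p i ≤ n / 3 ^ i := by
  rw [Nat.le_div_iff_mul_le (by positivity)]
  calc k p i * 3 ^ i ≤ (p.parts.filter fun x => 3 ^ i ≤ x).sum := by
        have := Multiset.card_nsmul_le_sum (s := p.parts.filter fun x => 3 ^ i ≤ x) (a := 3 ^ i)
          fun x hx => (Multiset.mem_filter.1 hx).2
        simpa [k] using this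
    _ ≤ p.parts.sum := by
        conv_rhs => rw [← Multiset.filter_add_not (fun x => 3 ^ i ≤ x) p.parts, Multiset.sum_add]
        omega
    _ = n := p.parts_sum

lemma count_le {n : ℕ} (p : Nat.Partition n) (i : ℕ) (hi : 0 < i) : p.parts.count i ≤ n / i := by
  rw [Nat.le_div_iff_mul_le hi]
  have h1 : Multiset.replicate (p.parts.count i) i ≤ p.parts :=
    Multiset.le_count_iff_replicate_le.1 le_rfl
  obtain ⟨t, ht⟩ := Multiset.le_iff_exists_add.1 h1
  have h2 := p.parts_sum
  rw [ht, Multiset.sum_add, Multiset.sum_replicate, smul_eq_mul] at h2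
  omega

lemma sp_eq (n : ℕ) (s : Multiset ℕ) (hs : ∀ x ∈ s, ∃ j, j < n ∧ x = 3 ^ j) :
    (s.map fun i => (1 + X ^ i : ℤ[X])).prod =
      ∏ i ∈ range n, c i ^ (s.filter fun x => 3 ^ i ≤ x).card := by
  induction s using Multiset.induction_on with
  | empty => simp
  | cons a s ih =>
    obtain ⟨j, hj, rfl⟩ := hs a (Multiset.mem_cons_self _ _)
    rw [Multiset.map_cons, Multiset.prod_cons, ih fun x hx => hs x (Multiset.mem_cons_of_mem hx),
      ← prod_c]
    have e : ∏ i ∈ range (j + 1), c i = ∏ i ∈ range n, c i ^ (if i ≤ j then 1 else 0) := by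
      simp only [pow_ite, pow_one, pow_zero]
      rw [← prod_filter]
      congr 1
      ext i; simp; omega
    rw [e, ← prod_mul_distrib]
    refine prod_congr rfl fun i _ => ?_
    rw [← pow_add, Multiset.filter_cons, Multiset.card_add]
    congr 2
    simp only [Nat.pow_le_pow_iff_right (by norm_num : 1 < 3)]
    split_ifs <;> simp

noncomputable def g {n : ℕ} (p : Nat.Partition n) : ℤ[X] :=
  ∏ i ∈ range n, c i ^ (n / 3 ^ i - k p i)

noncomputable def L (n : ℕ) : ℤ[X] := ∏ i ∈ range n, c i ^ (n / 3 ^ i)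

noncomputable def H (n : ℕ) : ℤ[X] := ∏ i ∈ Icc 1 n, (1 + X ^ i) ^ (n / i)

lemma monic_L (n : ℕ) : (L n).Monic := monic_prod_of_monic _ _ fun i _ => (monic_c i).pow _

lemma monic_g {n : ℕ} (p : Nat.Partition n) : (g p).Monic :=
  monic_prod_of_monic _ _ fun i _ => (monic_c i).pow _

lemma monic_H (n : ℕ) : (H n).Monic :=
  monic_prod_of_monic _ _ fun i hi => (monic_one_add i (mem_Icc.1 hi).1).pow _

lemma L_dvd (n : ℕ) : L n ∣ H n := by
  have h1 : L n ∣ ∏ i ∈ range n, (1 + X ^ 3 ^ i) ^ (n / 3 ^ i) :=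
    prod_dvd_prod_of_dvd _ _ fun i _ => pow_dvd_pow_of_dvd
      (by rw [← prod_c, prod_range_succ]; exact dvd_mul_left _ _) _
  refine h1.trans ?_
  rw [← prod_image (s := range n) (g := fun i => 3 ^ i)
    (f := fun i => (1 + X ^ i : ℤ[X]) ^ (n / i))
    (fun a _ b _ h => Nat.pow_right_injective (by norm_num : 2 ≤ 3) h),
    ← prod_filter_mul_prod_filter_not _ (fun i => i ≤ n),
    prod_eq_one (s := filter (fun i => ¬ i ≤ n) _), mul_one]
  · refine prod_dvd_prod_of_subset _ _ _ fun i hi => ?_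
    obtain ⟨hi, h2⟩ := mem_filter.1 hi
    obtain ⟨j, -, rfl⟩ := mem_image.1 hi
    exact mem_Icc.2 ⟨Nat.one_le_pow _ _ (by norm_num), h2⟩
  · intro i hi
    rw [Nat.div_eq_of_lt (not_le.1 (mem_filter.1 hi).2), pow_zero]

lemma h_mul {n : ℕ} (p : Nat.Partition n) (hp : Ternary p) : h p * L n = H n * g p := by
  have hle : ∀ x ∈ p.parts, x ≤ n := fun x hx =>
    p.parts_sum ▸ Multiset.single_le_sum (fun _ _ => Nat.zero_le _) x hx
  have h1 : h p * (p.parts.map fun i => (1 + X ^ i : ℤ[X])).prod = H n := by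
    rw [Finset.prod_multiset_map_count, prod_subset (s₂ := Icc 1 n), h, ← prod_mul_distrib]
    · refine prod_congr rfl fun i hi => ?_
      rw [← pow_add, Nat.sub_add_cancel (count_le p i (mem_Icc.1 hi).1)]
    · intro x hx
      have hx := Multiset.mem_toFinset.1 hx
      exact mem_Icc.2 ⟨p.parts_pos hx, hle x hx⟩
    · intro x _ hx
      rw [Multiset.count_eq_zero.2 fun h => hx (Multiset.mem_toFinset.2 h), pow_zero]
  have h2 : (p.parts.map fun i => (1 + X ^ i : ℤ[X])).prod * g p = L n := by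
    rw [sp_eq n, g, ← prod_mul_distrib]
    · refine prod_congr rfl fun i hi => ?_
      rw [← pow_add]
      exact congrArg _ (Nat.add_sub_cancel' (k_le p i))
    · intro x hx
      obtain ⟨j, rfl⟩ := hp x hx
      exact ⟨j, (Nat.lt_pow_self (by norm_num)).trans_le (hle _ hx), rfl⟩
  rw [← h1, ← h2, mul_assoc]

/-- as many parts `3^j` as possible, and ones -/
def lam (n j : ℕ) : Nat.Partition n where
  parts := Multiset.replicate (n / 3 ^ j) (3 ^ j) + Multiset.replicate (n % 3 ^ j) 1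
  parts_pos := by
    intro i hi
    rcases Multiset.mem_add.1 hi with h | h <;> rw [Multiset.eq_of_mem_replicate h] <;> positivity
  parts_sum := by simp [Nat.div_add_mod']

lemma lam_t (n j : ℕ) : Ternary (lam n j) := by
  intro i hi
  rcases Multiset.mem_add.1 hi with h | h
  · exact ⟨j, Multiset.eq_of_mem_replicate h⟩
  · exact ⟨0, Multiset.eq_of_mem_replicate h⟩

lemma k_lam (n j : ℕ) : n / 3 ^ j ≤ k (lam n j) j := by
  rw [k, lam, Multiset.filter_add, Multiset.card_add, Multiset.filter_eq_self.2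
    fun a ha => (Multiset.eq_of_mem_replicate ha).ge, Multiset.card_replicate]
  omega

lemma root_lt {z : ℂ} {i j : ℕ} (hij : i < j) (hi : aeval z (c i) = 0) (hj : aeval z (c j) = 0) :
    False := by
  obtain ⟨j, rfl⟩ : ∃ t, j = t + 1 := ⟨j - 1, by omega⟩
  have h1 : aeval z (∏ i ∈ range (j + 1), c i) = 0 := by
    rw [map_prod]; exact prod_eq_zero (mem_range.2 hij) hi
  rw [prod_c] at h1
  simp only [c, map_add, map_sub, map_pow, aeval_X, map_one] at h1 hj
  rw [show z ^ 3 ^ j = -1 by linear_combination h1] at hj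
  norm_num at hj

lemma unit_of {n : ℕ} (u : ℤ[X]) (hu : u.Monic)
    (hd : ∀ p : Nat.Partition n, Ternary p → u ∣ g p) : u = 1 := by
  by_contra h1
  have h2 : 0 < (u.map (algebraMap ℤ ℂ)).degree := by
    rw [hu.degree_map]; exact hu.degree_pos_of_not_isUnit (by rwa [hu.isUnit_iff])
  obtain ⟨z, hz⟩ := Complex.exists_root h2
  rw [IsRoot, eval_map_algebraMap] at hz
  have key : ∀ j, ∃ i, i ≠ j ∧ aeval z (c i) = 0 := by
    intro j
    obtain ⟨t, ht⟩ := hd _ (lam_t n j)
    have h3 : aeval z (g (lam n j)) = 0 := by rw [ht, map_mul, hz, zero_mul]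
    rw [g, map_prod, prod_eq_zero_iff] at h3
    obtain ⟨i, -, hi⟩ := h3
    rw [map_pow, pow_eq_zero_iff'] at hi
    refine ⟨i, ?_, hi.1⟩
    rintro rfl
    exact hi.2 (Nat.sub_eq_zero_of_le (k_lam n i))
  obtain ⟨i, -, hi⟩ := key 0
  obtain ⟨j, hj, hj'⟩ := key i
  rcases lt_or_gt_of_ne hj with h | h
  · exact root_lt h hj' hi
  · exact root_lt h hi hj'

lemma isG {n : ℕ} {K : ℤ[X]} (hK : H n = L n * K) :
    K.Monic ∧ (∀ p : Nat.Partition n, Ternary p → h p = K * g p) ∧ IsG n K := by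
  have h1 : K.Monic := (monic_L n).of_mul_monic_left (hK ▸ monic_H n)
  have h2 : ∀ p : Nat.Partition n, Ternary p → h p = K * g p := fun p hp => by
    apply mul_right_cancel₀ (monic_L n).ne_zero
    rw [h_mul p hp, hK]; ring
  refine ⟨h1, h2, h1, fun p hp => h2 p hp ▸ dvd_mul_right _ _, fun D hD => ?_⟩
  classical
  letI : NormalizedGCDMonoid ℤ[X] := Polynomial.normalizedGcdMonoid
  have h3 : D ∣ ((univ : Finset (Nat.Partition n)).filter Ternary).gcd fun p => K * g p :=
    Finset.dvd_gcd fun p hp => h2 p (mem_filter.1 hp).2 ▸ hD p (mem_filter.1 hp).2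
  rw [Finset.gcd_mul_left] at h3
  set u := ((univ : Finset (Nat.Partition n)).filter Ternary).gcd g
  have h4 : ∀ p : Nat.Partition n, Ternary p → u ∣ g p := fun p hp =>
    Finset.gcd_dvd (mem_filter.2 ⟨mem_univ _, hp⟩)
  have h5 : IsUnit u.leadingCoeff :=
    (monic_g (lam n 0)).isUnit_leadingCoeff_of_dvd (h4 _ (lam_t n 0))
  obtain ⟨v, hv⟩ := h5.exists_left_inv
  have h6 : C v * u = 1 := by
    refine unit_of (n := n) _ ?_ fun p hp => ?_
    · exact monic_C_mul_of_mul_leadingCoeff_eq_one hv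
    · exact (isUnit_C.2 (IsUnit.of_mul_eq_one _ hv)).mul_left_dvd.2 (h4 p hp)
  exact ((IsUnit.of_mul_eq_one_right _ h6).dvd_mul_right.1 h3).trans (normalize_associated K).dvd

lemma c_eval (i : ℕ) : (c (i + 1)).eval (-1) = 3 := by
  have : (-1 : ℤ) ^ 3 ^ i = -1 := Odd.neg_one_pow (Odd.pow (by decide))
  simp [c, this]

open Classical in
lemma sum_eval (n : ℕ) :
    (∑ p ∈ (univ : Finset (Nat.Partition n)).filter Ternary, g p).eval (-1) =
      3 ^ padicValNat 3 n.factorial := by
  rw [eval_finsetSum, sum_eq_single (lam n 0)]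
  · have hk : ∀ i, k (lam n 0) (i + 1) = 0 := by
      intro i
      rw [k, Multiset.card_eq_zero, Multiset.filter_eq_nil]
      intro a ha
      have : 1 < 3 ^ (i + 1) := Nat.one_lt_pow (by omega) (by norm_num)
      rcases Multiset.mem_add.1 ha with h | h <;> rw [Multiset.eq_of_mem_replicate h] <;>
        simp <;> omega
    haveI : Fact (Nat.Prime 3) := ⟨Nat.prime_three⟩
    rcases n with _ | n
    · simp [g]
    rw [g, prod_range_succ', Nat.sub_eq_zero_of_le (k_lam _ 0), pow_zero, mul_one, eval_prod,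
      padicValNat_factorial (b := n + 1) (Nat.log_lt_self _ (by omega)), sum_Ico_eq_sum_range,
      ← prod_pow_eq_pow_sum]
    refine prod_congr rfl fun i _ => ?_
    rw [eval_pow, c_eval, hk, add_comm 1 i, Nat.sub_zero]
  · intro p hp hne
    rcases n with _ | n
    · exact absurd (Subsingleton.elim _ _) hne
    have h1 : k p 0 < n + 1 := by
      by_contra hc
      apply hne
      have h2 : n + 1 ≤ p.parts.card := (not_lt.1 hc).trans
        (Multiset.card_le_card (Multiset.filter_le _ _))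
      have h3 : ∀ x ∈ p.parts, x = 1 := by
        intro x hx
        obtain ⟨t, ht⟩ := Multiset.exists_cons_of_mem hx
        have h4 := p.parts_sum
        have h5 := Multiset.card_nsmul_le_sum (s := t) (a := 1) fun y hy =>
          p.parts_pos (ht ▸ Multiset.mem_cons_of_mem hy)
        have h6 := p.parts_pos hx
        rw [ht] at h2 h4
        simp at h2 h4 h5
        omega
      have h4 := Multiset.eq_replicate_card.2 h3
      have h5 : p.parts.card = n + 1 := by
        have := p.parts_sum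
        rw [h4] at this
        simpa using this
      ext1
      rw [h4, h5]
      simp [lam, Nat.mod_one]
    rw [g, prod_range_succ', eval_mul, eval_pow]
    simp [c, h1, Nat.sub_ne_zero_iff_lt]
  · intro h
    exact absurd (mem_filter.2 ⟨mem_univ _, lam_t n 0⟩) h

lemma main (n : ℕ) : (∃ N, IsNum n N) ∧
    ∀ N, IsNum n N → N.eval (-1) = 3 ^ padicValNat 3 n.factorial := by
  classical
  obtain ⟨K, hK⟩ := L_dvd n
  obtain ⟨h1, h2, h3⟩ := isG hK
  have e : K * ∑ p ∈ (univ : Finset (Nat.Partition n)).filter Ternary, g p =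
      ∑ p ∈ (univ : Finset (Nat.Partition n)).filter Ternary, h p := by
    rw [mul_sum]
    exact sum_congr rfl fun p hp => (h2 p (mem_filter.1 hp).2).symm
  refine ⟨⟨_, K, h3, by convert e⟩, ?_⟩
  rintro N ⟨G, hG, hN⟩
  have : G = K := eq_of_monic_of_associated hG.1 h1
    (associated_of_dvd_dvd (h3.2.2 G hG.2.1) (hG.2.2 K h3.2.1))
  subst this
  have h4 := mul_left_cancel₀ h1.ne_zero (hN.trans (by convert e.symm))
  rw [h4]
  convert sum_eval n

theorem result :
    (∀ n, 1 ≤ n → ∃ N, IsNum n N) ∧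
    (∀ N, IsNum 1 N → N.eval (-1) = 1) ∧ (∀ N, IsNum 2 N → N.eval (-1) = 1) ∧
    ∀ n, 1 ≤ n → ∀ r, r ≤ 2 → ∀ N, IsNum (3 * n + r) N →
      N.eval (-1) = 3 ^ padicValNat 3 (3 * n).factorial := by
  haveI : Fact (Nat.Prime 3) := ⟨Nat.prime_three⟩
  refine ⟨fun n _ => (main n).1, fun N hN => by simpa using (main 1).2 N hN, fun N hN => ?_,
    fun n _ r hr N hN => ?_⟩
  · rw [(main 2).2 N hN, padicValNat.eq_zero_of_not_dvd (by decide), pow_zero]
  · rw [(main _).2 N hN, padicValNat_factorial_mul_add n (by omega)]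

end Pool.Agent.Results.MP_6f4f36_nt.Value
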